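import Mathlib

/-! Definitions and basic closure lemmas for MP_817937_gt (minimality of the compact-open
topology on PL homeomorphism groups). -/

open Set Filter Topology
open scoped Manifold

namespace Pool.Agent.Lib_helper11.PLM

/-- the model space -/
abbrev E (n : ℕ) := Fin n → ℝ

/-- `f` is piecewise linear on `s`: continuous on `s`, and near every point of `s` it is at every
point equal to one of finitely many affine maps. -/
def LocPL {n : ℕ} (f : E n → E n) (s : Set (E n)) : Prop :=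
  ContinuousOn f s ∧ ∀ x ∈ s, ∃ u : Set (E n), IsOpen u ∧ x ∈ u ∧
    ∃ A : Set (E n →ᵃ[ℝ] E n), A.Finite ∧ ∀ y ∈ s ∩ u, ∃ a ∈ A, f y = a y

/-- the pregroupoid of piecewise linear maps -/
def plPregroupoid (n : ℕ) : Pregroupoid (E n) where
  property := LocPL
  comp := by
    rintro f g u v ⟨hfc, hf⟩ ⟨hgc, hg⟩ hu hv huv
    refine ⟨hgc.comp (hfc.mono inter_subset_left) (fun x hx => hx.2), ?_⟩
    rintro x ⟨hxu, hxv⟩
    obtain ⟨U, hU, hxU, A, hA, hfA⟩ := hf x hxu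
    obtain ⟨V, hV, hxV, B, hB, hgB⟩ := hg (f x) hxv
    have hW : IsOpen (u ∩ f ⁻¹' V) := hfc.isOpen_inter_preimage hu hV
    refine ⟨U ∩ (u ∩ f ⁻¹' V), hU.inter hW, ⟨hxU, hxu, hxV⟩,
      (fun ab : (E n →ᵃ[ℝ] E n) × (E n →ᵃ[ℝ] E n) => ab.2.comp ab.1) '' (A ×ˢ B),
      (hA.prod hB).image _, ?_⟩
    rintro y ⟨⟨hyu, hyv⟩, hyU, hyu', hyV⟩
    obtain ⟨a, ha, hfa⟩ := hfA y ⟨hyu, hyU⟩
    obtain ⟨b, hb, hgb⟩ := hgB (f y) ⟨hyv, hyV⟩
    refine ⟨b.comp a, ⟨(a, b), ⟨ha, hb⟩, rfl⟩, ?_⟩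
    simp only [Function.comp_apply, AffineMap.coe_comp]
    rw [hgb, hfa]
  id_mem := by
    refine ⟨continuousOn_id, fun x _ => ⟨univ, isOpen_univ, mem_univ x, {AffineMap.id ℝ _},
      finite_singleton _, fun y _ => ⟨_, rfl, rfl⟩⟩⟩
  locality := by
    intro f u hu H
    refine ⟨?_, ?_⟩
    · intro x hx
      obtain ⟨v, hv, hxv, hf, -⟩ := H x hx
      exact ((hf x ⟨hx, hxv⟩).mono_of_mem_nhdsWithin
        (by rw [nhdsWithin, hu.mem_nhds hx |> fun h => inf_eq_left.2 (le_principal_iff.2 h)]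
            exact (hu.inter hv).mem_nhds ⟨hx, hxv⟩))
    · intro x hx
      obtain ⟨v, hv, hxv, -, hf⟩ := H x hx
      obtain ⟨w, hw, hxw, A, hA, hfA⟩ := hf x ⟨hx, hxv⟩
      exact ⟨v ∩ w, hv.inter hw, ⟨hxv, hxw⟩, A, hA, fun y hy => hfA y ⟨⟨hy.1, hy.2.1⟩, hy.2.2⟩⟩
  congr := by
    rintro f g u hu hfg ⟨hc, hf⟩
    refine ⟨hc.congr hfg, fun x hx => ?_⟩
    obtain ⟨w, hw, hxw, A, hA, hfA⟩ := hf x hx
    refine ⟨w, hw, hxw, A, hA, fun y hy => ?_⟩
    rw [hfg y hy.1]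
    exact hfA y hy

/-- the groupoid of piecewise linear homeomorphisms between open subsets of `ℝ^n` -/
def plGroupoid (n : ℕ) : StructureGroupoid (E n) := (plPregroupoid n).groupoid

/-- the group `PL(M)` of a PL manifold `M`, a subgroup of the homeomorphism group -/
def PLHomeo (n : ℕ) (M : Type*) [TopologicalSpace M] [ChartedSpace (E n) M]
    [HasGroupoid M (plGroupoid n)] : Subgroup (M ≃ₜ M) where
  carrier := {f | ∀ c ∈ atlas (E n) M, ∀ c' ∈ atlas (E n) M,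
    c.symm ≫ₕ f.toOpenPartialHomeomorph ≫ₕ c' ∈ plGroupoid n}
  mul_mem' := by
    intro f g hf hg c hc c' hc'
    exact (Structomorph.trans (G := plGroupoid n)
      ({ g with mem_groupoid := fun c c' hc hc' => hg c hc c' hc' } : Structomorph (plGroupoid n) M M)
      ({ f with mem_groupoid := fun c c' hc hc' => hf c hc c' hc' } :
        Structomorph (plGroupoid n) M M)).mem_groupoid c c' hc hc'
  one_mem' := by
    intro c hc c' hc'
    exact (Structomorph.refl (G := plGroupoid n) M).mem_groupoid c c' hc hc'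
  inv_mem' := by
    intro f hf c hc c' hc'
    exact (Structomorph.symm (G := plGroupoid n)
      ({ f with mem_groupoid := fun c c' hc hc' => hf c hc c' hc' } :
        Structomorph (plGroupoid n) M M)).mem_groupoid c c' hc hc'

/-- the compact-open topology restricted to `PL(M)` -/
@[reducible] def coTop (n : ℕ) (M : Type*) [TopologicalSpace M] [ChartedSpace (E n) M]
    [HasGroupoid M (plGroupoid n)] : TopologicalSpace (PLHomeo n M) :=
  TopologicalSpace.induced (fun f => (⟨(f : M ≃ₜ M), (f : M ≃ₜ M).continuous⟩ : C(M, M)))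
    ContinuousMap.compactOpen

/-- globally finite piecewise linear maps -/
def IsPL {V W : Type*} [NormedAddCommGroup V] [NormedSpace ℝ V] [NormedAddCommGroup W]
    [NormedSpace ℝ W] (f : V → W) : Prop :=
  Continuous f ∧ ∃ A : Set (V →ᵃ[ℝ] W), A.Finite ∧ ∀ x, ∃ a ∈ A, f x = a x

section basic

variable {U V W : Type*} [NormedAddCommGroup U] [NormedSpace ℝ U] [NormedAddCommGroup V]
  [NormedSpace ℝ V] [NormedAddCommGroup W] [NormedSpace ℝ W]

theorem IsPL.const (c : W) : IsPL (fun _ : V => c) :=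
  ⟨continuous_const, {AffineMap.const ℝ V c}, finite_singleton _, fun _ => ⟨_, rfl, rfl⟩⟩

theorem IsPL.of_affine (a : V →ᵃ[ℝ] W) (ha : Continuous a) : IsPL (a : V → W) :=
  ⟨ha, {a}, finite_singleton _, fun _ => ⟨_, rfl, rfl⟩⟩

theorem IsPL.id : IsPL (fun x : V => x) :=
  ⟨continuous_id, {AffineMap.id ℝ V}, finite_singleton _, fun _ => ⟨_, rfl, rfl⟩⟩

theorem IsPL.comp {g : V → W} {f : U → V} (hg : IsPL g) (hf : IsPL f) :
    IsPL (fun x => g (f x)) := by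
  obtain ⟨hgc, B, hB, hgB⟩ := hg
  obtain ⟨hfc, A, hA, hfA⟩ := hf
  refine ⟨hgc.comp hfc, (fun ab : (U →ᵃ[ℝ] V) × (V →ᵃ[ℝ] W) => ab.2.comp ab.1) '' (A ×ˢ B),
      (hA.prod hB).image _, fun x => ?_⟩
  obtain ⟨a, ha, hfa⟩ := hfA x
  obtain ⟨b, hb, hgb⟩ := hgB (f x)
  exact ⟨b.comp a, ⟨(a, b), ⟨ha, hb⟩, rfl⟩, by
    simp only [AffineMap.coe_comp, Function.comp_apply]
    rw [hgb, hfa]⟩

theorem IsPL.add {f g : V → W} (hf : IsPL f) (hg : IsPL g) : IsPL (fun x => f x + g x) := by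
  obtain ⟨hgc, B, hB, hgB⟩ := hg
  obtain ⟨hfc, A, hA, hfA⟩ := hf
  refine ⟨hfc.add hgc, (fun ab : (V →ᵃ[ℝ] W) × (V →ᵃ[ℝ] W) => ab.1 + ab.2) '' (A ×ˢ B),
      (hA.prod hB).image _, fun x => ?_⟩
  obtain ⟨a, ha, hfa⟩ := hfA x
  obtain ⟨b, hb, hgb⟩ := hgB x
  exact ⟨a + b, ⟨(a, b), ⟨ha, hb⟩, rfl⟩, by simp [hgb, hfa]⟩

theorem IsPL.neg {f : V → W} (hf : IsPL f) : IsPL (fun x => - f x) := by
  obtain ⟨hfc, A, hA, hfA⟩ := hf
  refine ⟨hfc.neg, (fun a : (V →ᵃ[ℝ] W) => -a) '' A, hA.image _, fun x => ?_⟩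
  obtain ⟨a, ha, hfa⟩ := hfA x
  exact ⟨-a, ⟨a, ha, rfl⟩, by simp [hfa]⟩

theorem IsPL.sub {f g : V → W} (hf : IsPL f) (hg : IsPL g) : IsPL (fun x => f x - g x) := by
  simpa [sub_eq_add_neg] using hf.add hg.neg

theorem IsPL.const_smul {f : V → W} (c : ℝ) (hf : IsPL f) : IsPL (fun x => c • f x) := by
  obtain ⟨hfc, A, hA, hfA⟩ := hf
  refine ⟨hfc.const_smul c, (fun a : (V →ᵃ[ℝ] W) => c • a) '' A, hA.image _, fun x => ?_⟩
  obtain ⟨a, ha, hfa⟩ := hfA x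
  exact ⟨c • a, ⟨a, ha, rfl⟩, by simp [hfa]⟩

theorem IsPL.smul_const {f : V → ℝ} (hf : IsPL f) (w : W) : IsPL (fun x => f x • w) := by
  obtain ⟨hfc, A, hA, hfA⟩ := hf
  refine ⟨hfc.smul continuous_const,
    (fun a : (V →ᵃ[ℝ] ℝ) => ((LinearMap.toSpanSingleton ℝ W w).toAffineMap.comp a)) '' A,
    hA.image _, fun x => ?_⟩
  obtain ⟨a, ha, hfa⟩ := hfA x
  exact ⟨_, ⟨a, ha, rfl⟩, by simp [hfa]⟩

theorem IsPL.max {f g : V → ℝ} (hf : IsPL f) (hg : IsPL g) : IsPL (fun x => max (f x) (g x)) := by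
  obtain ⟨hgc, B, hB, hgB⟩ := hg
  obtain ⟨hfc, A, hA, hfA⟩ := hf
  refine ⟨hfc.max hgc, A ∪ B, hA.union hB, fun x => ?_⟩
  obtain ⟨a, ha, hfa⟩ := hfA x
  obtain ⟨b, hb, hgb⟩ := hgB x
  rcases max_choice (f x) (g x) with h | h
  · exact ⟨a, Or.inl ha, h.trans hfa⟩
  · exact ⟨b, Or.inr hb, h.trans hgb⟩

theorem IsPL.min {f g : V → ℝ} (hf : IsPL f) (hg : IsPL g) : IsPL (fun x => min (f x) (g x)) := by
  obtain ⟨hgc, B, hB, hgB⟩ := hg
  obtain ⟨hfc, A, hA, hfA⟩ := hf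
  refine ⟨hfc.min hgc, A ∪ B, hA.union hB, fun x => ?_⟩
  obtain ⟨a, ha, hfa⟩ := hfA x
  obtain ⟨b, hb, hgb⟩ := hgB x
  rcases min_choice (f x) (g x) with h | h
  · exact ⟨a, Or.inl ha, h.trans hfa⟩
  · exact ⟨b, Or.inr hb, h.trans hgb⟩

theorem IsPL.abs {f : V → ℝ} (hf : IsPL f) : IsPL (fun x => |f x|) := by
  have := hf.max hf.neg
  simpa [abs_eq_max_neg] using this

theorem IsPL.congr {f g : V → W} (hf : IsPL f) (h : ∀ x, g x = f x) : IsPL g := by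
  have : g = f := funext h
  rwa [this]

theorem IsPL.apply {m : ℕ} (j : Fin m) {f : V → E m} (hf : IsPL f) : IsPL (fun x => f x j) := by
  have h2 : IsPL (fun y : E m => y j) := by
    have := IsPL.of_affine ((LinearMap.proj j : E m →ₗ[ℝ] ℝ).toAffineMap)
      (by simpa using continuous_apply j)
    simpa using this
  exact h2.comp hf

theorem IsPL.pi {m : ℕ} {f : V → E m} (hf : ∀ j, IsPL (fun x => f x j)) : IsPL f := by
  choose hc A hA hfA using hf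
  refine ⟨continuous_pi hc, (fun a : Fin m → (V →ᵃ[ℝ] ℝ) => AffineMap.pi a) '' (Set.pi univ A),
    (Set.Finite.pi' fun j => hA j).subset (by
      intro a ha
      simpa using ha) |>.image _, fun x => ?_⟩
  choose a ha hfa using fun j => hfA j x
  refine ⟨AffineMap.pi a, ⟨a, by simpa using ha, rfl⟩, ?_⟩
  funext j
  simp [hfa]

theorem IsPL.norm {m : ℕ} {f : V → E m} (hf : IsPL f) : IsPL (fun x => ‖f x‖) := by
  obtain ⟨hfc, A, hA, hfA⟩ := hf
  refine ⟨hfc.norm, {AffineMap.const ℝ V 0} ∪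
    ((fun p : Fin m × (V →ᵃ[ℝ] E m) => ((LinearMap.proj p.1 : E m →ₗ[ℝ] ℝ).toAffineMap.comp p.2)) ''
      (univ ×ˢ A) ∪ (fun p : Fin m × (V →ᵃ[ℝ] E m) =>
        -((LinearMap.proj p.1 : E m →ₗ[ℝ] ℝ).toAffineMap.comp p.2)) '' (univ ×ˢ A)),
    (finite_singleton _).union (((finite_univ.prod hA).image _).union
      ((finite_univ.prod hA).image _)), fun x => ?_⟩
  obtain ⟨a, ha, hfa⟩ := hfA x
  rcases isEmpty_or_nonempty (Fin m) with hm | hm
  · refine ⟨_, Or.inl rfl, ?_⟩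
    simp [Subsingleton.elim (f x) 0]
  · obtain ⟨j, hj⟩ := Finite.exists_max (fun j => ‖f x j‖)
    have hn : ‖f x‖ = |f x j| := by
      apply le_antisymm
      · exact (pi_norm_le_iff_of_nonneg (abs_nonneg _)).2 fun k => by simpa using hj k
      · simpa using norm_le_pi_norm (f x) j
    rcases abs_choice (f x j) with h | h
    · refine ⟨_, Or.inr (Or.inl ⟨(j, a), ⟨mem_univ _, ha⟩, rfl⟩), ?_⟩
      show ‖f x‖ = a x j
      rw [hn, h, hfa]
    · refine ⟨_, Or.inr (Or.inr ⟨(j, a), ⟨mem_univ _, ha⟩, rfl⟩), ?_⟩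
      show ‖f x‖ = -(a x j)
      rw [hn, h, hfa]

end basic

/-- a real function which is PL and Lipschitz -/
def PLL {V : Type*} [NormedAddCommGroup V] [NormedSpace ℝ V] (v : V → ℝ) : Prop :=
  IsPL v ∧ ∃ L, LipschitzWith L v

section PLL

variable {V : Type*} [NormedAddCommGroup V] [NormedSpace ℝ V]

theorem PLL.const (c : ℝ) : PLL (fun _ : V => c) := ⟨IsPL.const c, 0, LipschitzWith.const c⟩

theorem PLL.add {f g : V → ℝ} (hf : PLL f) (hg : PLL g) : PLL (fun x => f x + g x) := by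
  obtain ⟨hf, L, hL⟩ := hf
  obtain ⟨hg, L', hL'⟩ := hg
  exact ⟨hf.add hg, L + L', hL.add hL'⟩

theorem PLL.neg {f : V → ℝ} (hf : PLL f) : PLL (fun x => - f x) := by
  obtain ⟨hf, L, hL⟩ := hf
  exact ⟨hf.neg, L, hL.neg⟩

theorem PLL.sub {f g : V → ℝ} (hf : PLL f) (hg : PLL g) : PLL (fun x => f x - g x) := by
  simpa [sub_eq_add_neg] using hf.add hg.neg

theorem PLL.const_mul {f : V → ℝ} (c : ℝ) (hf : PLL f) : PLL (fun x => c * f x) := by
  obtain ⟨hf, L, hL⟩ := hf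
  refine ⟨by simpa [smul_eq_mul] using hf.const_smul c, ‖c‖₊ * L, ?_⟩
  exact (lipschitzWith_smul c).comp hL

theorem PLL.max {f g : V → ℝ} (hf : PLL f) (hg : PLL g) : PLL (fun x => max (f x) (g x)) := by
  obtain ⟨hf, L, hL⟩ := hf
  obtain ⟨hg, L', hL'⟩ := hg
  exact ⟨hf.max hg, _, hL.max hL'⟩

theorem PLL.min {f g : V → ℝ} (hf : PLL f) (hg : PLL g) : PLL (fun x => min (f x) (g x)) := by
  obtain ⟨hf, L, hL⟩ := hf
  obtain ⟨hg, L', hL'⟩ := hg
  exact ⟨hf.min hg, _, hL.min hL'⟩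

theorem PLL.abs {f : V → ℝ} (hf : PLL f) : PLL (fun x => |f x|) := by
  have := hf.max hf.neg
  simpa [abs_eq_max_neg] using this

theorem PLL.congr {f g : V → ℝ} (hf : PLL f) (h : ∀ x, g x = f x) : PLL g := by
  have : g = f := funext h
  rwa [this]

theorem PLL.linear {n : ℕ} (f : E n →ₗ[ℝ] ℝ) : PLL (fun x => f x) := by
  have hc : Continuous f := f.continuous_of_finiteDimensional
  refine ⟨by simpa using IsPL.of_affine f.toAffineMap (by simpa using hc),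
    ‖LinearMap.toContinuousLinearMap f‖₊, ?_⟩
  simpa using (LinearMap.toContinuousLinearMap f).lipschitz

theorem PLL.coord {n : ℕ} (j : Fin n) : PLL (fun x : E n => x j) := by
  simpa using PLL.linear (LinearMap.proj j : E n →ₗ[ℝ] ℝ)

theorem PLL.norm_linear {n m : ℕ} (f : E n →ₗ[ℝ] E m) (c : E m) : PLL (fun x => ‖f x - c‖) := by
  have hc : Continuous f := f.continuous_of_finiteDimensional
  have h1 : IsPL (fun x => f x - c) :=
    IsPL.sub (by simpa using IsPL.of_affine f.toAffineMap (by simpa using hc)) (IsPL.const c)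
  refine ⟨h1.norm, ‖LinearMap.toContinuousLinearMap f‖₊, ?_⟩
  have h1' := (LinearMap.toContinuousLinearMap f).lipschitz
  refine LipschitzWith.of_dist_le_mul fun x y => ?_
  have h3 := h1'.dist_le_mul x y
  have h5 : dist (‖f x - c‖) (‖f y - c‖) ≤ ‖(f x - c) - (f y - c)‖ := by
    rw [Real.dist_eq]; exact abs_norm_sub_norm_le _ _
  refine h5.trans ?_
  have h6 : (f x - c) - (f y - c) = f x - f y := by abel
  rw [h6]
  simpa [dist_eq_norm] using h3

theorem PLL.sum {ι : Type*} (s : Finset ι) (f : ι → V → ℝ) (hf : ∀ k ∈ s, PLL (f k)) :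
    PLL (fun x => ∑ k ∈ s, f k x) := by
  classical
  induction s using Finset.induction_on with
  | empty => simpa using PLL.const (V := V) 0
  | insert a s ha ih =>
    simp only [Finset.sum_insert ha]
    exact (hf a (Finset.mem_insert_self a s)).add
      (ih fun k hk => hf k (Finset.mem_insert_of_mem hk))

end PLL

/-- PL homeomorphisms of `ℝ^n` which are the identity outside the open ball of radius `R`. -/
def HC (n : ℕ) (R : ℝ) : Subgroup (E n ≃ₜ E n) where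
  carrier := {h | IsPL (h : E n → E n) ∧ IsPL (h.symm : E n → E n) ∧ ∀ x, R ≤ ‖x‖ → h x = x}
  mul_mem' := by
    rintro f g ⟨hf, hf', hf0⟩ ⟨hg, hg', hg0⟩
    refine ⟨hf.comp hg, hg'.comp hf', fun x hx => ?_⟩
    show f (g x) = x
    rw [hg0 x hx, hf0 x hx]
  one_mem' := ⟨IsPL.id, IsPL.id, fun x _ => rfl⟩
  inv_mem' := by
    rintro f ⟨hf, hf', hf0⟩
    refine ⟨hf', hf, fun x hx => ?_⟩
    show f.symm x = x
    rw [Homeomorph.symm_apply_eq, hf0 x hx]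

/-- `h` is supported in `V`: it fixes every point outside `V`. -/
def Supp {n : ℕ} {R : ℝ} (h : HC n R) (V : Set (E n)) : Prop :=
  ∀ x, x ∉ V → (h : E n ≃ₜ E n) x = x

/-- norm of all coordinates except the `i`-th -/
def nu {n : ℕ} (i : Fin n) (x : E n) : ℝ := ‖Function.update x i 0‖

theorem PLL.nu {n : ℕ} (i : Fin n) (c : E n) : PLL (fun x : E n => nu i (x - c)) := by
  let f : E n →ₗ[ℝ] E n :=
    { toFun := fun x => Function.update x i 0
      map_add' := fun x y => by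
        funext j
        by_cases h : j = i
        · subst h; simp
        · simp [h]
      map_smul' := fun r x => by
        funext j
        by_cases h : j = i
        · subst h; simp
        · simp [h] }
  refine (PLL.norm_linear f (f c)).congr fun x => ?_
  rw [← map_sub]
  rfl

/-- the `i`-th unit vector -/
def ee {n : ℕ} (i : Fin n) : E n := Pi.single i 1

/-- filters of neighbourhoods of the identity of a group topology -/
structure GF (G : Type*) [Group G] (F : Filter G) : Prop where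
  one : ∀ N ∈ F, (1 : G) ∈ N
  mul : ∀ N ∈ F, ∃ N' ∈ F, ∀ x ∈ N', ∀ y ∈ N', x * y ∈ N
  inv : ∀ N ∈ F, ∃ N' ∈ F, ∀ x ∈ N', x⁻¹ ∈ N
  conj : ∀ g, ∀ N ∈ F, ∃ N' ∈ F, ∀ x ∈ N', g * x * g⁻¹ ∈ N

/-- small homeomorphisms belong to every neighbourhood -/
def SmallIn {n : ℕ} {R : ℝ} (F : Filter (HC n R)) : Prop :=
  ∀ N ∈ F, ∃ ε > 0, ∀ h : HC n R, (∀ x, ‖(h : E n ≃ₜ E n) x - x‖ < ε) → h ∈ N

/-- every neighbourhood contains the group of an open set crossing from the ball of radius 2 to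
the sphere of radius 9 -/
def Cross0 {n : ℕ} (F : Filter (HC n 10)) : Prop :=
  ∀ N ∈ F, ∃ V : Set (E n), IsOpen V ∧
    (∃ γ : ℝ → E n, ContinuousOn γ (Icc 0 1) ∧ (∀ t ∈ Icc (0:ℝ) 1, γ t ∈ V ∧ ‖γ t‖ ≤ 9) ∧
      ‖γ 0‖ ≤ 2 ∧ ‖γ 1‖ = 9) ∧
    ∀ h : HC n 10, Supp h V → h ∈ N

/-- crossing in the direction `i` from `x i ≤ a` to `a + 7 ≤ x i` -/
def CrossDir {n : ℕ} (F : Filter (HC n 10)) (i : Fin n) (a : ℝ) : Prop :=
  ∀ N ∈ F, ∃ V : Set (E n), IsOpen V ∧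
    (∃ γ : ℝ → E n, ContinuousOn γ (Icc 0 1) ∧ (∀ t ∈ Icc (0:ℝ) 1, γ t ∈ V ∧ ‖γ t‖ ≤ 9) ∧
      γ 0 i ≤ a ∧ a + 7 ≤ γ 1 i) ∧
    ∀ h : HC n 10, Supp h V → h ∈ N

/-- crossing inside arbitrarily thin straight tubes -/
def CrossTube {n : ℕ} (F : Filter (HC n 10)) (i : Fin n) (a : ℝ) : Prop :=
  ∀ N ∈ F, ∀ lam > 0, ∀ c : E n, (∀ j, |c j| ≤ 1) → c i = 0 → ∃ V : Set (E n), IsOpen V ∧
    (∃ γ : ℝ → E n, ContinuousOn γ (Icc 0 1) ∧
      (∀ t ∈ Icc (0:ℝ) 1, γ t ∈ V ∧ nu i (γ t - c) ≤ lam) ∧ γ 0 i ≤ a ∧ a + 7 ≤ γ 1 i) ∧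
    ∀ h : HC n 10, Supp h V → h ∈ N

/-- `s` pushes along the line through `c` in direction `i` -/
structure Pusher {n : ℕ} (i : Fin n) (a : ℝ) (c : E n) (η : ℝ) (s : HC n 10) : Prop where
  dir : ∀ x, ∃ τ : ℝ, 0 ≤ τ ∧ (s : E n ≃ₜ E n) x = x + τ • ee i
  supp : ∀ x, ¬ (a < x i ∧ x i < a + 7 ∧ nu i (x - c) < η) → (s : E n ≃ₜ E n) x = x
  push : ∀ x, nu i (x - c) ≤ η / 2 → a + 1 ≤ x i → a + 6 ≤ (s : E n ≃ₜ E n) x i

/-- the polygonal path `p 0, p 1, ..., p m` as a set -/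
def poly {n : ℕ} (p : ℕ → E n) (m : ℕ) : Set (E n) := ⋃ k < m, segment ℝ (p k) (p (k + 1))

/-- any five (or fewer) of the points `p 0, ..., p m` are affinely independent -/
def GP {n : ℕ} (p : ℕ → E n) (m : ℕ) : Prop :=
  ∀ s : Finset ℕ, s.card ≤ 5 → (∀ k ∈ s, k ≤ m) → AffineIndependent ℝ (fun k : s => p k)

end Pool.Agent.Lib_helper11.PLM
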